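import Pool.Agent.R690.Pd.Star

set_option autoImplicit false

/-!
# Projective dimension of powers of square-free monomial ideals

For a square-free monomial ideal `I` with `q` generators and `q ≥ 2^r + r - 1` the projective
dimension of `I^r` is at most `q.choose r - 1`.

Sketch: in a strand of `I^r` let `Q` be the set of the exponent vectors `a` (with `|a| = r`) of the
products of generators dividing the multidegree. After adding variables for all subsets `B` of the
set of generators (this is harmless by induction), the vertices `B` such that the family of the
`a ∈ Q` of maximal degree on `B` is not minimal are dominated, and one shows that there are at most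
`q.choose r` minimal families.
-/

namespace Pool.Agent.Results.MP_42242f_al.ProjDimPowers

open Pool.Agent.R690.Kos MvPolynomial

/-- The projective dimension of the ideal `J` is at most `p`: `Tor_i^S(J, K) = 0` for all `i > p`,
where `Tor` is computed by the Koszul complex. -/
def PdLe {n : ℕ} {K : Type*} [Field K] (J : Ideal (MvPolynomial (Fin n) K)) (p : ℕ) : Prop :=
  ∀ i, p < i → cycles J i Set.univ ≤ boundaries J i Set.univ

/-- For `r ≥ 1` and `q ≥ 2^r + r - 1`, every ideal `I` generated by `q` square-free monomials (the
products of the variables in `m l`, `l < q`), over any field and in any number of variables,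
satisfies `pd(I^r) ≤ q.choose r - 1`. -/
theorem result : ∀ r : ℕ, 1 ≤ r → ∀ q : ℕ, 2 ^ r + r - 1 ≤ q →
    ∀ (K : Type*) [Field K] (n : ℕ) (m : Fin q → Finset (Fin n)),
      PdLe (Ideal.span (Set.range fun l => ∏ j ∈ m l, (X j : MvPolynomial (Fin n) K)) ^ r)
        (q.choose r - 1) := by
  intro r hr q hq K _ n m i hi
  exact Pool.Agent.R690.Pd.tor_zero K hr (by omega) m (by omega)

end Pool.Agent.Results.MP_42242f_al.ProjDimPowers
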